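import Mathlib

/-! Real variable lemmas: limits of integrals of monotone functions, and a rigidity lemma for
functions which do not increase over steps of a fixed length. -/

set_option autoImplicit false

open MeasureTheory Filter Topology

namespace Pool.Agent.U507.FL

/-- upper Riemann sums -/
lemma riem_up {φ : ℝ → ℝ} {R : ℝ} (hR : 0 < R) (hφ : MonotoneOn φ (Set.Icc 0 R)) {n : ℕ}
    (hn : 0 < n) : ∫ x in (0 : ℝ)..R, φ x ≤
      R / n * ∑ i ∈ Finset.range n, φ (R / n * ((i + 1 : ℕ) : ℝ)) := by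
  have hn' : (0 : ℝ) < n := by exact_mod_cast hn
  have hc : 0 < R / n := by positivity
  have hm : MonotoneOn (fun u => φ (R / n * u)) (Set.Icc (0 : ℝ) (0 + n)) := by
    intro u hu v hv huv
    rw [zero_add] at hu hv
    refine hφ ⟨mul_nonneg hc.le hu.1, ?_⟩ ⟨mul_nonneg hc.le hv.1, ?_⟩
      (mul_le_mul_of_nonneg_left huv hc.le)
    · calc R / n * u ≤ R / n * n := mul_le_mul_of_nonneg_left hu.2 hc.le
        _ = R := div_mul_cancel₀ _ hn'.ne'
    · calc R / n * v ≤ R / n * n := mul_le_mul_of_nonneg_left hv.2 hc.le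
        _ = R := div_mul_cancel₀ _ hn'.ne'
  have h1 := hm.integral_le_sum
  rw [zero_add, intervalIntegral.integral_comp_mul_left (fun x => φ x) hc.ne', mul_zero,
    div_mul_cancel₀ _ hn'.ne', smul_eq_mul] at h1
  simp only [zero_add] at h1
  have h2 := mul_le_mul_of_nonneg_left h1 hc.le
  rwa [mul_inv_cancel_left₀ hc.ne'] at h2

/-- lower Riemann sums -/
lemma riem_low {φ : ℝ → ℝ} {R : ℝ} (hR : 0 < R) (hφ : MonotoneOn φ (Set.Icc 0 R)) {n : ℕ}
    (hn : 0 < n) : R / n * ∑ i ∈ Finset.range n, φ (R / n * ((i + 1 : ℕ) : ℝ)) ≤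
      (∫ x in (0 : ℝ)..R, φ x) + R / n * (φ R - φ 0) := by
  have hn' : (0 : ℝ) < n := by exact_mod_cast hn
  have hc : 0 < R / n := by positivity
  have hm : MonotoneOn (fun u => φ (R / n * u)) (Set.Icc (0 : ℝ) (0 + n)) := by
    intro u hu v hv huv
    rw [zero_add] at hu hv
    refine hφ ⟨mul_nonneg hc.le hu.1, ?_⟩ ⟨mul_nonneg hc.le hv.1, ?_⟩
      (mul_le_mul_of_nonneg_left huv hc.le)
    · calc R / n * u ≤ R / n * n := mul_le_mul_of_nonneg_left hu.2 hc.le
        _ = R := div_mul_cancel₀ _ hn'.ne'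
    · calc R / n * v ≤ R / n * n := mul_le_mul_of_nonneg_left hv.2 hc.le
        _ = R := div_mul_cancel₀ _ hn'.ne'
  have h1 := hm.sum_le_integral
  rw [zero_add, intervalIntegral.integral_comp_mul_left (fun x => φ x) hc.ne', mul_zero,
    div_mul_cancel₀ _ hn'.ne', smul_eq_mul] at h1
  simp only [zero_add] at h1
  have h2 := mul_le_mul_of_nonneg_left h1 hc.le
  rw [mul_inv_cancel_left₀ hc.ne'] at h2
  have h3 : ∑ i ∈ Finset.range n, φ (R / n * ((i + 1 : ℕ) : ℝ)) =
      ∑ i ∈ Finset.range n, φ (R / n * (i : ℝ)) + (φ R - φ 0) := by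
    have h4 := Finset.sum_range_succ (fun i : ℕ => φ (R / n * (i : ℝ))) n
    have h5 := Finset.sum_range_succ' (fun i : ℕ => φ (R / n * (i : ℝ))) n
    rw [h4] at h5
    have e1 : R / n * (n : ℝ) = R := div_mul_cancel₀ _ hn'.ne'
    rw [e1] at h5
    have e2 : R / n * ((0 : ℕ) : ℝ) = 0 := by simp
    rw [e2] at h5
    linarith
  rw [h3, mul_add]
  linarith

/-- the limit of the integrals of monotone functions is at most the integral of the limit -/
lemma lim_mono {Φ : ℝ → ℝ → ℝ} {φ : ℝ → ℝ} {g : Filter ℝ} [NeBot g] {R J : ℝ} (hR : 0 < R)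
    (hΦ : ∀ᶠ T in g, MonotoneOn (Φ T) (Set.Icc 0 R))
    (hlim : ∀ b ∈ Set.Icc (0 : ℝ) R, Tendsto (fun T => Φ T b) g (𝓝 (φ b)))
    (hJ : Tendsto (fun T => ∫ b in (0 : ℝ)..R, Φ T b) g (𝓝 J)) :
    J ≤ ∫ b in (0 : ℝ)..R, φ b := by
  have hφ : MonotoneOn φ (Set.Icc 0 R) := by
    intro a ha b hb hab
    refine le_of_tendsto_of_tendsto (hlim a ha) (hlim b hb) ?_
    filter_upwards [hΦ] with T hT using hT ha hb hab
  have key : ∀ n : ℕ, J ≤ (∫ b in (0 : ℝ)..R, φ b) + R * (φ R - φ 0) * (1 / ((n : ℝ) + 1)) := by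
    intro n
    have h1 : Tendsto (fun T => R / ((n + 1 : ℕ) : ℝ) * ∑ i ∈ Finset.range (n + 1),
        Φ T (R / ((n + 1 : ℕ) : ℝ) * ((i + 1 : ℕ) : ℝ))) g
        (𝓝 (R / ((n + 1 : ℕ) : ℝ) * ∑ i ∈ Finset.range (n + 1),
          φ (R / ((n + 1 : ℕ) : ℝ) * ((i + 1 : ℕ) : ℝ)))) := by
      refine Tendsto.const_mul _ (tendsto_finsetSum _ fun i hi => hlim _ ?_)
      have hi' : ((i + 1 : ℕ) : ℝ) ≤ ((n + 1 : ℕ) : ℝ) := by
        exact_mod_cast Nat.succ_le_of_lt (Finset.mem_range.1 hi)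
      have hn' : (0 : ℝ) < ((n + 1 : ℕ) : ℝ) := by positivity
      refine ⟨by positivity, ?_⟩
      calc R / ((n + 1 : ℕ) : ℝ) * ((i + 1 : ℕ) : ℝ) ≤ R / ((n + 1 : ℕ) : ℝ) * ((n + 1 : ℕ) : ℝ) :=
            mul_le_mul_of_nonneg_left hi' (by positivity)
        _ = R := div_mul_cancel₀ _ hn'.ne'
    have h2 := le_of_tendsto_of_tendsto hJ h1
      (by filter_upwards [hΦ] with T hT using riem_up hR hT (Nat.succ_pos n))
    refine h2.trans ((riem_low hR hφ (Nat.succ_pos n)).trans (le_of_eq ?_))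
    push_cast
    ring
  have hl : Tendsto (fun n : ℕ => (∫ b in (0 : ℝ)..R, φ b) +
      R * (φ R - φ 0) * (1 / ((n : ℝ) + 1))) atTop
      (𝓝 ((∫ b in (0 : ℝ)..R, φ b) + R * (φ R - φ 0) * 0)) :=
    (tendsto_one_div_add_atTop_nhds_zero_nat.const_mul _).const_add _
  rw [mul_zero, add_zero] at hl
  exact ge_of_tendsto' hl key

/-- the bound of the rigidity lemma -/
noncomputable def Bd (ℓ x : ℝ) : ℝ := max (Real.sqrt (ℓ / (3 * x))) (1 / (3 * x))

/-- **rigidity**: a function on `(0, R]` which is nonpositive, vanishes on `(0, 1)`, decreases at a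
rate at most one, does not increase over steps of length `ℓ` and has integral at least `-1/6` is
close to `0` -/
lemma fin_real {N : ℝ → ℝ} {ℓ R b : ℝ} (hℓ : 0 < ℓ) (hb : 0 < b) (hbR : b < R)
    (hint : ∀ x y : ℝ, 0 ≤ x → x ≤ y → y ≤ R → IntervalIntegrable N volume x y)
    (hz : ∀ x, 0 < x → x < 1 → N x = 0)
    (hneg : ∀ x, 0 < x → x ≤ R → N x ≤ 0)
    (hstep : ∀ x, 0 < x → x + ℓ ≤ R → N (x + ℓ) ≤ N x)
    (hslope : ∀ x y, 0 < x → x ≤ y → y ≤ R → N x - (y - x) ≤ N y)
    (hlow : -(1 / 6) ≤ ∫ x in (0 : ℝ)..R, N x) : -(Bd ℓ (R - b)) ≤ N b := by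
  by_contra hcon
  push Not at hcon
  have hRb : 0 < R - b := by linarith
  set η : ℝ := -N b with hη
  have hBη : Bd ℓ (R - b) < η := by linarith
  have hB0 : 0 < Bd ℓ (R - b) := lt_max_of_lt_right (by positivity)
  have hη0 : 0 < η := by linarith
  -- `b - η ≥ 1`
  have hb1 : 1 ≤ b - η := by
    by_contra h
    push Not at h
    rcases lt_or_ge b 1 with h1 | h1
    · have := hz b hb h1
      linarith
    · -- choose x in (b - η, 1)
      obtain ⟨x, hx1, hx2⟩ := exists_between (show max (b - η) 0 < 1 by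
        rw [max_lt_iff]; exact ⟨h, one_pos⟩)
      have hx0 : 0 < x := (le_max_right _ _).trans_lt hx1
      have hxb : b - η < x := (le_max_left _ _).trans_lt hx1
      have h2 := hslope x b hx0 (by linarith) hbR.le
      rw [hz x hx0 hx2] at h2
      linarith
  set τ : ℝ := min η ℓ with hτ
  have hτ0 : 0 < τ := lt_min hη0 hℓ
  have hτη : τ ≤ η := min_le_left _ _
  have hτℓ : τ ≤ ℓ := min_le_right _ _
  -- iterated steps
  have hit : ∀ j : ℕ, ∀ x, 0 < x → x + j * ℓ ≤ R → N (x + j * ℓ) ≤ N x := by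
    intro j
    induction j with
    | zero => intro x _ _; simp
    | succ j ih =>
      intro x hx hxR
      have e : x + ((j + 1 : ℕ) : ℝ) * ℓ = x + j * ℓ + ℓ := by push_cast; ring
      rw [e] at hxR ⊢
      have h1 : 0 ≤ (j : ℝ) * ℓ := by positivity
      exact (hstep _ (by linarith) hxR).trans (ih x hx (by linarith))
  -- one block
  have hblk : ∀ j : ℕ, b + j * ℓ ≤ R →
      ∫ x in (b + j * ℓ - τ)..(b + j * ℓ), N x ≤ -(η * τ - τ ^ 2 / 2) := by
    intro j hj
    have hj0 : 0 ≤ (j : ℝ) * ℓ := by positivity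
    have h1 : ∫ x in (b + j * ℓ - τ)..(b + j * ℓ), N x ≤
        ∫ x in (b + j * ℓ - τ)..(b + j * ℓ), (-η + (b + j * ℓ - x)) := by
      refine intervalIntegral.integral_mono_on (by linarith)
        (hint _ _ (by linarith) (by linarith) hj)
        ((by fun_prop : Continuous fun x : ℝ => -η + (b + j * ℓ - x)).intervalIntegrable _ _)
        fun x hx => ?_
      have h2 := hit j (x - j * ℓ) (by linarith [hx.1]) (by linarith [hx.2])
      rw [sub_add_cancel] at h2
      have h3 := hslope (x - j * ℓ) b (by linarith [hx.1]) (by linarith [hx.2]) hbR.le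
      linarith
    refine h1.trans (le_of_eq ?_)
    have h2 : ∀ x : ℝ, HasDerivAt (fun x : ℝ => -η * x - (b + j * ℓ - x) ^ 2 / 2)
        (-η + (b + j * ℓ - x)) x := by
      intro x
      have h3 : HasDerivAt (fun x : ℝ => b + j * ℓ - x) (-1) x := by
        simpa using (hasDerivAt_id x).const_sub (b + j * ℓ)
      have h4 := ((hasDerivAt_id x).const_mul (-η)).sub ((h3.pow 2).div_const 2)
      refine h4.congr_deriv ?_
      simp
      ring
    rw [intervalIntegral.integral_eq_sub_of_hasDerivAt (fun x _ => h2 x)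
      ((by fun_prop : Continuous fun x : ℝ => -η + (b + j * ℓ - x)).intervalIntegrable _ _)]
    ring
  have hnn : 0 ≤ η * τ - τ ^ 2 / 2 := by nlinarith
  -- nonpositive integrals
  have hnp : ∀ x y : ℝ, 0 ≤ x → x ≤ y → y ≤ R → ∫ t in x..y, N t ≤ 0 := by
    intro x y hx hxy hy
    have h1 : ∫ t in x..y, N t ≤ ∫ t in x..y, (0 : ℝ) := by
      refine intervalIntegral.integral_mono_on_of_le_Ioo hxy (hint x y hx hxy hy) (by simp)
        fun t ht => hneg t (by linarith [ht.1]) (by linarith [ht.2])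
    simpa using h1
  -- the sum
  have hsum : ∀ j : ℕ, b + j * ℓ ≤ R →
      ∫ x in (0 : ℝ)..(b + j * ℓ), N x ≤ -((j + 1 : ℕ) : ℝ) * (η * τ - τ ^ 2 / 2) := by
    intro j
    induction j with
    | zero =>
      intro hj
      have h1 := hblk 0 hj
      simp only [Nat.cast_zero, zero_mul, add_zero] at h1 hj ⊢
      have h2 := hnp 0 (b - τ) le_rfl (by linarith) (by linarith)
      rw [← intervalIntegral.integral_add_adjacent_intervals
        (hint 0 (b - τ) le_rfl (by linarith) (by linarith))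
        (hint (b - τ) b (by linarith) (by linarith) hj)]
      push_cast
      linarith
    | succ j ih =>
      intro hj
      have hj0 : 0 ≤ (j : ℝ) * ℓ := by positivity
      have e : b + ((j + 1 : ℕ) : ℝ) * ℓ = b + j * ℓ + ℓ := by push_cast; ring
      have hj' : b + j * ℓ + ℓ ≤ R := by rwa [e] at hj
      have h1 := hblk (j + 1) hj
      have h3 := ih (by linarith)
      rw [e] at h1 ⊢
      have h2 := hnp (b + j * ℓ) (b + j * ℓ + ℓ - τ) (by linarith) (by linarith) (by linarith)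
      rw [← intervalIntegral.integral_add_adjacent_intervals
        (hint 0 (b + j * ℓ) le_rfl (by linarith) (by linarith))
        (hint (b + j * ℓ) (b + j * ℓ + ℓ) (by linarith) (by linarith) hj'),
        ← intervalIntegral.integral_add_adjacent_intervals
        (hint (b + j * ℓ) (b + j * ℓ + ℓ - τ) (by linarith) (by linarith) (by linarith))
        (hint (b + j * ℓ + ℓ - τ) (b + j * ℓ + ℓ) (by linarith) (by linarith) hj')]
      push_cast at h3 ⊢
      linarith
  -- the number of blocks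
  set k : ℕ := ⌊(R - b) / ℓ⌋₊ with hk
  have hk1 : (k : ℝ) ≤ (R - b) / ℓ := Nat.floor_le (by positivity)
  have hk2 : (R - b) / ℓ < k + 1 := Nat.lt_floor_add_one _
  rw [le_div_iff₀ hℓ] at hk1
  rw [div_lt_iff₀ hℓ] at hk2
  have h1 := hsum k (by linarith)
  have h2 := hnp (b + k * ℓ) R (by positivity) (by linarith) le_rfl
  have h3 : ∫ x in (0 : ℝ)..R, N x = (∫ x in (0 : ℝ)..(b + k * ℓ), N x) +
      ∫ x in (b + k * ℓ)..R, N x := by
    rw [intervalIntegral.integral_add_adjacent_intervals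
      (hint 0 (b + k * ℓ) le_rfl (by positivity) (by linarith))
      (hint (b + k * ℓ) R (by positivity) (by linarith) le_rfl)]
  rw [h3] at hlow
  push_cast at h1
  have h4 : ((k : ℝ) + 1) * (η * τ - τ ^ 2 / 2) ≤ 1 / 6 := by linarith
  have hBs : Real.sqrt (ℓ / (3 * (R - b))) < η := (le_max_left _ _).trans_lt hBη
  have hBi : 1 / (3 * (R - b)) < η := (le_max_right _ _).trans_lt hBη
  rcases le_total η ℓ with h5 | h5
  · have e : τ = η := min_eq_left h5
    rw [e] at h4
    have h6 : ℓ / (3 * (R - b)) < η ^ 2 := by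
      rw [Real.sqrt_lt' hη0] at hBs
      exact hBs
    rw [div_lt_iff₀ (by positivity)] at h6
    have h7 : ((k : ℝ) + 1) * η ^ 2 ≤ 1 / 3 := by nlinarith
    have h8 : ℓ * (((k : ℝ) + 1) * η ^ 2) ≤ ℓ * (1 / 3) := mul_le_mul_of_nonneg_left h7 hℓ.le
    have h9 : (R - b) * η ^ 2 ≤ ((k : ℝ) + 1) * ℓ * η ^ 2 :=
      mul_le_mul_of_nonneg_right hk2.le (sq_nonneg _)
    nlinarith
  · have e : τ = ℓ := min_eq_right h5
    rw [e] at h4
    rw [div_lt_iff₀ (by positivity)] at hBi
    have h6 : ((k : ℝ) + 1) * (η * ℓ / 2) ≤ 1 / 6 := by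
      refine le_trans (mul_le_mul_of_nonneg_left ?_ (by positivity)) h4
      nlinarith
    have h7 : (R - b) * η ≤ ((k : ℝ) + 1) * ℓ * η := mul_le_mul_of_nonneg_right hk2.le hη0.le
    nlinarith

end Pool.Agent.U507.FL
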