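import Pool.Agent.Y749.Rig.FFe
import Pool.Agent.U507.FL.RealV

/-! The form factor along an ultrafilter. -/

set_option autoImplicit false

open MeasureTheory Filter Topology

namespace Pool.Agent.U507.FL

open Pool.Agent.Y749.Rig

/-- the primitive of the form factor -/
noncomputable def Ph (T b : ℝ) : ℝ := ∫ α in (0 : ℝ)..b, Fr T α

lemma tent_parts {g : ℝ → ℝ} (hg : Continuous g) (he : ∀ x, g (-x) = g x) {R : ℝ} (hR : 0 < R) :
    ∫ α, max 0 (R - |α|) * g α = 2 * ∫ b in (0 : ℝ)..R, ∫ α in (0 : ℝ)..b, g α := by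
  have hc : Continuous fun α : ℝ => max 0 (R - |α|) * g α := by fun_prop
  rw [int_supp hR (fun x hx => by rw [max_eq_left (by linarith), zero_mul]),
    ← intervalIntegral.integral_add_adjacent_intervals (b := 0) (hc.intervalIntegrable _ _)
      (hc.intervalIntegrable _ _)]
  have h1 : ∫ α in (-R)..0, max 0 (R - |α|) * g α = ∫ α in (0 : ℝ)..R, max 0 (R - |α|) * g α := by
    have h6 := intervalIntegral.integral_comp_neg (a := 0) (b := R)
      (fun α => max 0 (R - |α|) * g α)
    rw [neg_zero] at h6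
    rw [← h6]
    refine intervalIntegral.integral_congr fun α _ => ?_
    show max 0 (R - |(-α)|) * g (-α) = max 0 (R - |α|) * g α
    rw [he, abs_neg]
  rw [h1]
  have h2 : ∫ α in (0 : ℝ)..R, max 0 (R - |α|) * g α = ∫ α in (0 : ℝ)..R, (R - α) * g α := by
    refine intervalIntegral.integral_congr fun α hα => ?_
    rw [Set.uIcc_of_le hR.le] at hα
    show max 0 (R - |α|) * g α = (R - α) * g α
    rw [abs_of_nonneg hα.1, max_eq_right (by linarith [hα.2])]
  rw [h2]
  set P : ℝ → ℝ := fun b => ∫ α in (0 : ℝ)..b, g α with hP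
  have hPd : ∀ b, HasDerivAt P (g b) b := fun b =>
    intervalIntegral.integral_hasDerivAt_right (hg.intervalIntegrable _ _)
      (hg.stronglyMeasurableAtFilter _ _) hg.continuousAt
  have hPc : Continuous P := continuous_iff_continuousAt.2 fun b => (hPd b).continuousAt
  have h3 : ∀ b, HasDerivAt (fun b => (R - b) * P b) (-P b + (R - b) * g b) b := by
    intro b
    have h4 : HasDerivAt (fun b : ℝ => R - b) (-1) b := by
      simpa using (hasDerivAt_id b).const_sub R
    refine (h4.mul (hPd b)).congr_deriv ?_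
    ring
  have c1 : Continuous fun b => -P b := hPc.neg
  have c2 : Continuous fun b : ℝ => (R - b) * g b := by fun_prop
  have h5 := intervalIntegral.integral_eq_sub_of_hasDerivAt (a := 0) (b := R) (fun b _ => h3 b)
    ((c1.add c2).intervalIntegrable _ _)
  rw [intervalIntegral.integral_add (c1.intervalIntegrable _ _) (c2.intervalIntegrable _ _),
    intervalIntegral.integral_neg] at h5
  have h6 : P 0 = 0 := by simp [hP]
  rw [h6] at h5
  have h7 : ∫ α in (0 : ℝ)..R, (R - α) * g α = ∫ b in (0 : ℝ)..R, P b := by linarith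
  rw [h7]
  ring

lemma tent_tr {R : ℝ} (hR : 0 < R) (T : ℝ) :
    ∫ b in (0 : ℝ)..R, Ph T b = R ^ 2 / 2 * ∫ α, tr R α * Fr T α := by
  have h1 := tent_parts (Fr_cont T) (fun x => Fr_even T x) hR
  have h2 : ∫ α, max 0 (R - |α|) * Fr T α = R ^ 2 * ∫ α, tr R α * Fr T α := by
    rw [← integral_const_mul]
    refine integral_congr_ae (ae_of_all _ fun α => ?_)
    simp only
    rw [← tent_eq hR]
    ring
  rw [h2] at h1
  unfold Ph
  linarith

lemma int_mn_small {b : ℝ} (h0 : 0 ≤ b) (h1 : b ≤ 1) : ∫ α in (0 : ℝ)..b, mn α = b ^ 2 / 2 := by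
  have : ∫ α in (0 : ℝ)..b, mn α = ∫ α in (0 : ℝ)..b, α := by
    refine intervalIntegral.integral_congr fun α hα => ?_
    rw [Set.uIcc_of_le h0] at hα
    show mn α = α
    unfold mn
    rw [abs_of_nonneg hα.1, min_eq_left (hα.2.trans h1)]
  rw [this, integral_id]
  ring

lemma int_mn_sub {a b : ℝ} (hab : a ≤ b) : (∫ α in (0 : ℝ)..b, mn α) - ∫ α in (0 : ℝ)..a, mn α =
    ∫ α in a..b, mn α :=
  intervalIntegral.integral_interval_sub_left (mn_cont.intervalIntegrable _ _)
    (mn_cont.intervalIntegrable _ _)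

lemma Ph_sub (T a b : ℝ) : Ph T b - Ph T a = ∫ α in a..b, Fr T α :=
  intervalIntegral.integral_interval_sub_left ((Fr_cont T).intervalIntegrable _ _)
    ((Fr_cont T).intervalIntegrable _ _)

lemma Ph_mono {T : ℝ} (hT : 10 ≤ T) : Monotone (Ph T) := by
  intro a b hab
  have h1 := Ph_sub T a b
  have h2 : 0 ≤ ∫ α in a..b, Fr T α := intervalIntegral.integral_nonneg hab fun x _ => Fr_nonneg hT x
  linarith

lemma Ph_cont (T : ℝ) : Continuous (Ph T) :=
  intervalIntegral.continuous_primitive (fun _ _ => (Fr_cont T).intervalIntegrable _ _) 0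

/-- the conjectured double primitive -/
lemma conj_J {R : ℝ} (hR : 1 ≤ R) :
    ∫ b in (0 : ℝ)..R, (1 / 2 + ∫ α in (0 : ℝ)..b, mn α) = R ^ 2 / 2 + 1 / 6 := by
  have hR0 : 0 < R := by linarith
  have hc : Continuous fun b : ℝ => ∫ α in (0 : ℝ)..b, mn α :=
    intervalIntegral.continuous_primitive (fun _ _ => mn_cont.intervalIntegrable _ _) 0
  rw [intervalIntegral.integral_add (by simp) (hc.intervalIntegrable _ _),
    intervalIntegral.integral_const]
  have h1 := tent_parts mn_cont mn_even hR0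
  have h2 : ∫ α, max 0 (R - |α|) * mn α = 2 * (R ^ 2 * ∫ α in (0 : ℝ)..R, tr R α * mn α) := by
    have c1 : Continuous fun α : ℝ => max 0 (R - |α|) * mn α := by
      have := mn_cont
      fun_prop
    rw [int_supp hR0 (fun x hx => by rw [max_eq_left (by linarith), zero_mul]),
      ← intervalIntegral.integral_add_adjacent_intervals (b := 0) (c1.intervalIntegrable _ _)
      (c1.intervalIntegrable _ _)]
    have h3 : ∫ α in (-R)..0, max 0 (R - |α|) * mn α = ∫ α in (0 : ℝ)..R, max 0 (R - |α|) * mn α := by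
      have h6 := intervalIntegral.integral_comp_neg (a := 0) (b := R)
        (fun α => max 0 (R - |α|) * mn α)
      rw [neg_zero] at h6
      rw [← h6]
      refine intervalIntegral.integral_congr fun α _ => ?_
      show max 0 (R - |(-α)|) * mn (-α) = max 0 (R - |α|) * mn α
      rw [mn_even, abs_neg]
    rw [h3, ← intervalIntegral.integral_const_mul]
    have h4 : ∫ α in (0 : ℝ)..R, max 0 (R - |α|) * mn α =
        ∫ α in (0 : ℝ)..R, R ^ 2 * (tr R α * mn α) := by
      refine intervalIntegral.integral_congr fun α _ => ?_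
      show max 0 (R - |α|) * mn α = R ^ 2 * (tr R α * mn α)
      rw [← tent_eq hR0]
      ring
    rw [h4]
    ring
  rw [h2, tr_mn hR] at h1
  have h3 : ∫ b in (0 : ℝ)..R, ∫ α in (0 : ℝ)..b, mn α = R ^ 2 / 2 - R / 2 + 1 / 6 := by
    have h4 : R ^ 2 * (1 / 2 - 1 / (2 * R) + 1 / (6 * R ^ 2)) = R ^ 2 / 2 - R / 2 + 1 / 6 := by
      field_simp
    linarith
  rw [h3, smul_eq_mul]
  ring

/-- the limit functions along an ultrafilter -/
lemma exists_lims (RH : RiemannHypothesis) (U : Ultrafilter ℝ) (hU : (U : Filter ℝ) ≤ atTop) :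
    ∃ φ J : ℝ → ℝ, (∀ b, 0 ≤ b → Tendsto (fun T => Ph T b) (U : Filter ℝ) (𝓝 (φ b))) ∧
      (∀ R, 0 < R → Tendsto (fun T => ∫ b in (0 : ℝ)..R, Ph T b) (U : Filter ℝ) (𝓝 (J R))) ∧
      (∀ R, 0 < R → R < 1 → J R = (R + R ^ 3 / 3) / 2) ∧ (∀ R, 0 < R → R ^ 2 / 2 ≤ J R) := by
  obtain ⟨C, hC, hB⟩ := Mp_bdd
  obtain ⟨μ, -, hμ⟩ := exists_limit (by linarith) hB U hU
  have hev : ∀ᶠ T in (U : Filter ℝ), 10 ≤ T := hU (eventually_ge_atTop 10)
  -- the double primitives
  have hJ : ∀ R, 0 < R → Tendsto (fun T => ∫ b in (0 : ℝ)..R, Ph T b) (U : Filter ℝ)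
      (𝓝 (R ^ 2 / 2 * ∫ x, fl (tr R) x ∂μ)) := by
    intro R hR
    have h1 := Fr_lim (tr_int hR) (fl_qd (adm_tr hR)) hU
      (hμ _ (fl_cont (tr_int hR)) (fl_qd (adm_tr hR))).2
    refine (h1.const_mul (R ^ 2 / 2)).congr fun T => ?_
    rw [tent_tr hR]
  -- bounds
  have hbd : ∀ b, 0 ≤ b → ∃ L, Tendsto (fun T => Ph T b) (U : Filter ℝ) (𝓝 L) := by
    intro b hb
    set M : ℝ := (b + 1) ^ 2 / 2 * (∫ x, fl (tr (b + 1)) x ∂μ) + 1 with hM
    have h1 : ∀ᶠ T in (U : Filter ℝ), ∫ c in (0 : ℝ)..(b + 1), Ph T c < M :=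
      (tendsto_order.1 (hJ (b + 1) (by linarith))).2 _ (by rw [hM]; linarith)
    have h2 : ∀ᶠ T in (U : Filter ℝ), Ph T b ∈ Set.Icc 0 M := by
      filter_upwards [h1, hev] with T hT hT10
      have hm := Ph_mono hT10
      have h0 : Ph T 0 = 0 := by unfold Ph; simp
      have hPb : 0 ≤ Ph T b := by rw [← h0]; exact hm hb
      refine ⟨hPb, ?_⟩
      have hci : ∀ x y, IntervalIntegrable (Ph T) volume x y := fun x y =>
        (Ph_cont T).intervalIntegrable x y
      have h3 : Ph T b ≤ ∫ c in b..(b + 1), Ph T c := by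
        have h4 : ∫ c in b..(b + 1), Ph T b ≤ ∫ c in b..(b + 1), Ph T c :=
          intervalIntegral.integral_mono_on (by linarith) (by simp) (hci _ _)
            fun x hx => hm hx.1
        simpa using h4
      have h5 : 0 ≤ ∫ c in (0 : ℝ)..b, Ph T c := intervalIntegral.integral_nonneg hb
        fun x hx => by rw [← h0]; exact hm hx.1
      have h6 := intervalIntegral.integral_add_adjacent_intervals (hci 0 b) (hci b (b + 1))
      linarith
    have h3 : ((U.map fun T => Ph T b : Ultrafilter ℝ) : Filter ℝ) ≤ 𝓟 (Set.Icc 0 M) := by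
      rw [le_principal_iff]
      exact h2
    obtain ⟨L, _, hL⟩ := isCompact_Icc.ultrafilter_le_nhds _ h3
    exact ⟨L, hL⟩
  choose! φ hφ using hbd
  refine ⟨φ, fun R => R ^ 2 / 2 * ∫ x, fl (tr R) x ∂μ, hφ, hJ, fun R hR hR1 => ?_, fun R hR => ?_⟩
  · -- Montgomery
    have h1 := (Fr_lim (tr_int hR) (fl_qd (adm_tr hR)) le_rfl
      (test_limRH RH (adm_tr hR) hR hR1)).mono_left hU
    have h2 := h1.const_mul (R ^ 2 / 2)
    have h3 := tendsto_nhds_unique (hJ R hR) (h2.congr fun T => by rw [tent_tr hR])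
    show R ^ 2 / 2 * ∫ x, fl (tr R) x ∂μ = _
    rw [h3]
    unfold cc
    have e1 : tr R 0 = 1 / R := by unfold tr; simp
    have e2 : ∫ α, |α| * tr R α = R / 3 := by
      have c1 : Continuous fun α : ℝ => |α| * tr R α := by
        have := tr_cont R
        fun_prop
      rw [int_supp hR (fun x hx => by rw [tr_supp hR x hx, mul_zero]),
        ← intervalIntegral.integral_add_adjacent_intervals (b := 0) (c1.intervalIntegrable _ _)
        (c1.intervalIntegrable _ _)]
      have h4 : ∫ α in (-R)..0, |α| * tr R α = ∫ α in (0 : ℝ)..R, |α| * tr R α := by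
        have h6 := intervalIntegral.integral_comp_neg (a := 0) (b := R)
          (fun α => |α| * tr R α)
        rw [neg_zero] at h6
        rw [← h6]
        refine intervalIntegral.integral_congr fun α _ => ?_
        show |(-α)| * tr R (-α) = |α| * tr R α
        rw [tr_even, abs_neg]
      have h5 : ∫ α in (0 : ℝ)..R, |α| * tr R α =
          ∫ α in (0 : ℝ)..R, (1 / R * α - 1 / R ^ 2 * α ^ 2) := by
        refine intervalIntegral.integral_congr fun α hα => ?_
        rw [Set.uIcc_of_le hR.le] at hα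
        show |α| * tr R α = 1 / R * α - 1 / R ^ 2 * α ^ 2
        rw [tr_eq hR hα.1 hα.2, abs_of_nonneg hα.1]
        field_simp
      rw [h4, h5, intervalIntegral.integral_sub (by
        apply Continuous.intervalIntegrable; fun_prop) (by
        apply Continuous.intervalIntegrable; fun_prop), intervalIntegral.integral_const_mul,
        intervalIntegral.integral_const_mul, integral_id, integral_pow]
      push_cast
      field_simp
      ring
    rw [e1, e2]
    field_simp
  · -- the diagonal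
    show R ^ 2 / 2 ≤ R ^ 2 / 2 * ∫ x, fl (tr R) x ∂μ
    have h1 := Fr_lim (tr_int hR) (fl_qd (adm_tr hR)) hU
      (hμ _ (fl_cont (tr_int hR)) (fl_qd (adm_tr hR))).2
    have h2 : 1 ≤ ∫ x, fl (tr R) x ∂μ := by
      refine le_of_forall_pos_le_add fun ε hε => ?_
      have := ge_of_tendsto h1 (hU (diag_low hR hε))
      linarith
    have h3 : 0 < R ^ 2 / 2 := by positivity
    nlinarith

/-- the hypotheses: upper bounds for the means of the form factor over windows of length `ℓ`
inside `(0, R]` -/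
def Win (l : Filter ℝ) (ℓ R : ℝ) : Prop :=
  (∀ b, 1 < b → b ≤ ℓ → b ≤ R → ∀ ε : ℝ, 0 < ε → ∀ᶠ T in l,
    ∫ α in (1 / 2 : ℝ)..b, Fr T α ≤ (∫ α in (1 / 2 : ℝ)..b, mn α) + ε) ∧
  (∀ a, 0 < a → 1 < a + ℓ → a + ℓ ≤ R → ∀ ε : ℝ, 0 < ε → ∀ᶠ T in l,
    ∫ α in a..(a + ℓ), Fr T α ≤ (∫ α in a..(a + ℓ), mn α) + ε)

theorem ultra (RH : RiemannHypothesis) (U : Ultrafilter ℝ) (hU : (U : Filter ℝ) ≤ atTop)
    {ℓ R : ℝ} (hℓ : 0 < ℓ) (hR : 1 < R) (hW : Win (U : Filter ℝ) ℓ R) :
    ∃ N : ℝ → ℝ, (∀ b, 0 < b → Tendsto (fun T => Ph T b) (U : Filter ℝ)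
        (𝓝 (N b + (1 / 2 + ∫ α in (0 : ℝ)..b, mn α)))) ∧
      (∀ b, 0 < b → b ≤ R → N b ≤ 0) ∧ (∀ b, 0 < b → b < R → -(Bd ℓ (R - b)) ≤ N b) ∧
      (∀ b, 0 < b → b < 1 → N b = 0) ∧
      (∀ ε, 0 < ε → ∀ᶠ T in (U : Filter ℝ),
        ∫ α, tr R α * Fr T α ≤ 1 + 1 / (3 * R ^ 2) + ε) := by
  obtain ⟨φ, J, hφ, hJ, hJ1, hJ2⟩ := exists_lims RH U hU
  have hR0 : 0 < R := by linarith
  have hev : ∀ᶠ T in (U : Filter ℝ), 10 ≤ T := hU (eventually_ge_atTop 10)
  set c : ℝ → ℝ := fun b => 1 / 2 + ∫ α in (0 : ℝ)..b, mn α with hc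
  have hcc : Continuous c := continuous_const.add
    (intervalIntegral.continuous_primitive (fun _ _ => mn_cont.intervalIntegrable _ _) 0)
  have hcs : ∀ x y, x ≤ y → c y - c x = ∫ α in x..y, mn α := by
    intro x y hxy
    have := int_mn_sub hxy
    simp only [hc]
    linarith
  set N : ℝ → ℝ := fun b => φ b - c b with hN
  have hφm : ∀ x y, 0 ≤ x → x ≤ y → φ x ≤ φ y := by
    intro x y hx hxy
    refine le_of_tendsto_of_tendsto (hφ x hx) (hφ y (hx.trans hxy)) ?_
    filter_upwards [hev] with T hT using Ph_mono hT hxy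
  have hφi : ∀ x y : ℝ, 0 ≤ x → x ≤ y → IntervalIntegrable φ volume x y := by
    intro x y hx hxy
    refine MonotoneOn.intervalIntegrable fun a ha b hb hab => ?_
    rw [Set.uIcc_of_le hxy] at ha
    exact hφm a b (hx.trans ha.1) hab
  -- vanishing on (0, 1)
  have hci : ∀ T x y, IntervalIntegrable (Ph T) volume x y := fun T x y =>
    (Ph_cont T).intervalIntegrable x y
  have hz : ∀ b, 0 < b → b < 1 → N b = 0 := by
    intro b hb hb1
    have hcb : c b = 1 / 2 + b ^ 2 / 2 := by
      simp only [hc]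
      rw [int_mn_small hb.le hb1.le]
    have hup : ∀ h, 0 < h → b + h < 1 → φ b ≤ 1 / 2 + (3 * b ^ 2 + 3 * b * h + h ^ 2) / 6 := by
      intro h hh hbh
      have h1 : h * φ b ≤ J (b + h) - J b := by
        refine le_of_tendsto_of_tendsto ((hφ b hb.le).const_mul h)
          ((hJ (b + h) (by linarith)).sub (hJ b hb)) ?_
        filter_upwards [hev] with T hT
        rw [intervalIntegral.integral_interval_sub_left (hci T _ _) (hci T _ _)]
        have h2 : ∫ x in b..(b + h), Ph T b ≤ ∫ x in b..(b + h), Ph T x :=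
          intervalIntegral.integral_mono_on (by linarith) (by simp) (hci T _ _)
            fun x hx => Ph_mono hT hx.1
        simpa using h2
      rw [hJ1 _ (by linarith) hbh, hJ1 b hb hb1] at h1
      have h2 : h * (1 / 2 + (3 * b ^ 2 + 3 * b * h + h ^ 2) / 6) =
          (b + h + (b + h) ^ 3 / 3) / 2 - (b + b ^ 3 / 3) / 2 := by ring
      rw [← h2] at h1
      exact le_of_mul_le_mul_left h1 hh
    have hlo : ∀ h, 0 < h → 0 < b - h → 1 / 2 + (3 * b ^ 2 - 3 * b * h + h ^ 2) / 6 ≤ φ b := by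
      intro h hh hbh
      have h1 : J b - J (b - h) ≤ h * φ b := by
        refine le_of_tendsto_of_tendsto ((hJ b hb).sub (hJ (b - h) hbh))
          ((hφ b hb.le).const_mul h) ?_
        filter_upwards [hev] with T hT
        rw [intervalIntegral.integral_interval_sub_left (hci T _ _) (hci T _ _)]
        have h2 : ∫ x in (b - h)..b, Ph T x ≤ ∫ x in (b - h)..b, Ph T b :=
          intervalIntegral.integral_mono_on (by linarith) (hci T _ _) (by simp)
            fun x hx => Ph_mono hT hx.2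
        simpa using h2
      rw [hJ1 _ hbh (by linarith), hJ1 b hb hb1] at h1
      have h2 : h * (1 / 2 + (3 * b ^ 2 - 3 * b * h + h ^ 2) / 6) =
          (b + b ^ 3 / 3) / 2 - (b - h + (b - h) ^ 3 / 3) / 2 := by ring
      rw [← h2] at h1
      exact le_of_mul_le_mul_left h1 hh
    have h1 : φ b ≤ 1 / 2 + b ^ 2 / 2 := by
      refine le_of_forall_pos_le_add fun ε hε => ?_
      set h := min (min ((1 - b) / 2) ε) 1 with hh
      have h0 : 0 < h := lt_min (lt_min (by linarith) hε) one_pos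
      have h2 : h ≤ (1 - b) / 2 := (min_le_left _ _).trans (min_le_left _ _)
      have h3 : h ≤ ε := (min_le_left _ _).trans (min_le_right _ _)
      have h4 : h ≤ 1 := min_le_right _ _
      have h5 := hup h h0 (by linarith)
      nlinarith
    have h2 : 1 / 2 + b ^ 2 / 2 ≤ φ b := by
      refine le_of_forall_pos_le_add fun ε hε => ?_
      set h := min (b / 2) ε with hh
      have h0 : 0 < h := lt_min (by linarith) hε
      have h2 : h ≤ b / 2 := min_le_left _ _
      have h3 : h ≤ ε := min_le_right _ _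
      have h5 := hlo h h0 (by linarith)
      nlinarith
    simp only [hN]
    rw [hcb]
    linarith
  have hslope : ∀ x y, 0 < x → x ≤ y → N x - (y - x) ≤ N y := by
    intro x y hx hxy
    have h1 := hφm x y hx.le hxy
    have h2 := hcs x y hxy
    have h3 : ∫ α in x..y, mn α ≤ y - x := by
      calc ∫ α in x..y, mn α ≤ ∫ α in x..y, (1 : ℝ) :=
            intervalIntegral.integral_mono_on hxy (mn_cont.intervalIntegrable _ _) (by simp)
              fun x _ => mn_le x
        _ = _ := by simp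
    simp only [hN]
    linarith
  -- steps
  have hstep1 : ∀ a, 0 < a → 1 < a + ℓ → a + ℓ ≤ R → N (a + ℓ) ≤ N a := by
    intro a ha h1 h2
    have h3 : Tendsto (fun T => ∫ α in a..(a + ℓ), Fr T α) (U : Filter ℝ)
        (𝓝 (φ (a + ℓ) - φ a)) := by
      refine ((hφ (a + ℓ) (by linarith)).sub (hφ a ha.le)).congr fun T => ?_
      rw [Ph_sub]
    have h4 : φ (a + ℓ) - φ a ≤ ∫ α in a..(a + ℓ), mn α := by
      refine le_of_forall_pos_le_add fun ε hε => ?_
      exact le_of_tendsto h3 (hW.2 a ha h1 h2 ε hε)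
    have h5 := hcs a (a + ℓ) (by linarith)
    simp only [hN]
    linarith
  have hinit : ∀ b, 1 < b → b ≤ ℓ → b ≤ R → N b ≤ 0 := by
    intro b h1 h2 h2'
    have h3 : Tendsto (fun T => ∫ α in (1 / 2 : ℝ)..b, Fr T α) (U : Filter ℝ)
        (𝓝 (φ b - φ (1 / 2))) := by
      refine ((hφ b (by linarith)).sub (hφ (1 / 2) (by norm_num))).congr fun T => ?_
      rw [Ph_sub]
    have h4 : φ b - φ (1 / 2) ≤ ∫ α in (1 / 2 : ℝ)..b, mn α := by
      refine le_of_forall_pos_le_add fun ε hε => ?_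
      exact le_of_tendsto h3 (hW.1 b h1 h2 h2' ε hε)
    have h5 := hcs (1 / 2) b (by linarith)
    have h6 := hz (1 / 2) (by norm_num) (by norm_num)
    simp only [hN] at h6 ⊢
    linarith
  -- N 1 ≤ 0
  have hN1 : N 1 ≤ 0 := by
    refine le_of_forall_pos_le_add fun ε hε => ?_
    set t := min (min ε (ℓ / 2)) (min (R - 1) (1 / 2)) with ht
    have t0 : 0 < t := lt_min (lt_min hε (by positivity)) (lt_min (by linarith) (by norm_num))
    have t1 : t ≤ ε := (min_le_left _ _).trans (min_le_left _ _)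
    have t2 : t ≤ ℓ / 2 := (min_le_left _ _).trans (min_le_right _ _)
    have t3 : t ≤ R - 1 := (min_le_right _ _).trans (min_le_left _ _)
    have t4 : t ≤ 1 / 2 := (min_le_right _ _).trans (min_le_right _ _)
    have h1 := hslope 1 (1 + t) one_pos (by linarith)
    have h2 : N (1 + t) ≤ 0 := by
      rcases le_or_gt (1 + t) ℓ with h3 | h3
      · exact hinit (1 + t) (by linarith) h3 (by linarith)
      · have h4 := hstep1 (1 + t - ℓ) (by linarith) (by linarith) (by linarith)
        rw [sub_add_cancel] at h4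
        rw [hz (1 + t - ℓ) (by linarith) (by linarith)] at h4
        exact h4
    linarith
  have hneg0 : ∀ n : ℕ, ∀ b, 0 < b → b ≤ R → b ≤ n * ℓ → N b ≤ 0 := by
    intro n
    induction n with
    | zero =>
      intro b hb _ h
      simp at h
      linarith
    | succ n ih =>
      intro b hb hbR h
      rcases lt_trichotomy b 1 with h1 | h1 | h1
      · exact (hz b hb h1).le
      · rw [h1]; exact hN1
      · rcases le_or_gt b ℓ with h3 | h3
        · exact hinit b h1 h3 hbR
        · have h4 := hstep1 (b - ℓ) (by linarith) (by linarith) (by linarith)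
          rw [sub_add_cancel] at h4
          refine h4.trans (ih (b - ℓ) (by linarith) (by linarith) ?_)
          push_cast at h
          linarith
  have hneg : ∀ b, 0 < b → b ≤ R → N b ≤ 0 := by
    intro b hb hbR
    obtain ⟨n, hn⟩ := exists_nat_ge (b / ℓ)
    rw [div_le_iff₀ hℓ] at hn
    exact hneg0 n b hb hbR hn
  have hstep : ∀ a, 0 < a → a + ℓ ≤ R → N (a + ℓ) ≤ N a := by
    intro a ha h2
    rcases lt_or_ge 1 (a + ℓ) with h1 | h1
    · exact hstep1 a ha h1 h2
    · have h3 := hz a ha (by linarith)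
      rw [h3]
      exact hneg (a + ℓ) (by linarith) h2
  -- the lower bound for the integral
  have hle := lim_mono (Φ := Ph) (φ := φ) (g := (U : Filter ℝ)) hR0
    (by filter_upwards [hev] with T hT using (Ph_mono hT).monotoneOn _)
    (fun b hb => hφ b hb.1) (hJ R hR0)
  have hNint : ∀ x y : ℝ, 0 ≤ x → x ≤ y → y ≤ R → IntervalIntegrable N volume x y :=
    fun x y hx hxy _ => (hφi x y hx hxy).sub (hcc.intervalIntegrable _ _)
  have hNi : ∫ b in (0 : ℝ)..R, N b = (∫ b in (0 : ℝ)..R, φ b) - (R ^ 2 / 2 + 1 / 6) := by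
    rw [← conj_J hR.le]
    exact intervalIntegral.integral_sub (hφi 0 R le_rfl hR0.le) (hcc.intervalIntegrable _ _)
  have hlow : -(1 / 6) ≤ ∫ b in (0 : ℝ)..R, N b := by
    rw [hNi]
    have := hJ2 R hR0
    linarith
  refine ⟨N, fun b hb => ?_, hneg, fun b hb hbR => ?_, hz, fun ε hε => ?_⟩
  · have e : N b + (1 / 2 + ∫ α in (0 : ℝ)..b, mn α) = φ b := by
      simp only [hN, hc]
      ring
    rw [e]
    exact hφ b hb.le
  · exact fin_real hℓ hb hbR hNint hz hneg hstep (fun x y hx hxy _ => hslope x y hx hxy) hlow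
  · -- the tent
    have h1 : ∫ b in (0 : ℝ)..R, N b ≤ 0 := by
      have h2 : ∫ t in (0 : ℝ)..R, N t ≤ ∫ t in (0 : ℝ)..R, (0 : ℝ) := by
        refine intervalIntegral.integral_mono_on_of_le_Ioo hR0.le (hNint 0 R le_rfl hR0.le le_rfl)
          (by simp) fun t ht => hneg t ht.1 ht.2.le
      simpa using h2
    rw [hNi] at h1
    have h2 : J R ≤ R ^ 2 / 2 + 1 / 6 := by linarith
    have h3 : ∀ᶠ T in (U : Filter ℝ), ∫ b in (0 : ℝ)..R, Ph T b < R ^ 2 / 2 + 1 / 6 +
        ε * (R ^ 2 / 2) := by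
      refine (tendsto_order.1 (hJ R hR0)).2 _ ?_
      have : 0 < ε * (R ^ 2 / 2) := by positivity
      linarith
    filter_upwards [h3] with T hT
    rw [tent_tr hR0] at hT
    have h4 : R ^ 2 / 2 * (1 + 1 / (3 * R ^ 2) + ε) = R ^ 2 / 2 + 1 / 6 + ε * (R ^ 2 / 2) := by
      field_simp
      ring
    rw [← h4] at hT
    exact (lt_of_mul_lt_mul_left hT (by positivity)).le

end Pool.Agent.U507.FL
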