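import Pool.Agent.Y749.Rig.FFf
import Pool.Agent.U507.FL.Ultra
import Pool.Agent.U507.FW.Fin

/-! The criterion with windows of one fixed length for the form factor. -/

set_option autoImplicit false

open MeasureTheory Filter Topology

namespace Pool.Agent.U507.FL

open Pool.Agent.Y749.Rig
open Pool.Agent.Y744.G (Montgomery X D N)

/-- the upper bound for the mean over one interval -/
def MU (l : Filter ℝ) (a b : ℝ) : Prop := ∀ ε : ℝ, 0 < ε → ∀ᶠ T in l,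
  ∫ α in a..b, (P.F T α).re ≤ (∫ α in a..b, min α 1) + ε

lemma MU_iff {l : Filter ℝ} (hl : l ≤ atTop) {a b : ℝ} (ha : 0 < a) (hab : a < b) :
    MU l a b ↔ ∀ ε : ℝ, 0 < ε → ∀ᶠ T in l, ∫ α in a..b, Fr T α ≤ (∫ α in a..b, mn α) + ε := by
  unfold MU
  refine forall_congr' fun ε => forall_congr' fun _ => ?_
  rw [P.min_eq ha hab]
  constructor
  · intro h
    filter_upwards [h, hl (eventually_ge_atTop 10)] with T h1 h2
    rwa [P.mean_eq h2] at h1
  · intro h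
    filter_upwards [h, hl (eventually_ge_atTop 10)] with T h1 h2
    rwa [P.mean_eq h2]

/-- upper bounds for the windows of length `ℓ` inside `(0, R]` -/
def WinU (l : Filter ℝ) (ℓ R : ℝ) : Prop :=
  (∀ b, 1 < b → b ≤ ℓ → b ≤ R → MU l (1 / 2) b) ∧
  (∀ a, 0 < a → 1 < a + ℓ → a + ℓ ≤ R → MU l a (a + ℓ))

lemma Win_of {l : Filter ℝ} (hl : l ≤ atTop) {ℓ R : ℝ} (hℓ : 0 < ℓ) (h : WinU l ℓ R) :
    Win l ℓ R :=
  ⟨fun b h1 h2 h3 => (MU_iff hl (by norm_num) (by linarith)).1 (h.1 b h1 h2 h3),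
    fun a h1 h2 h3 => (MU_iff hl h1 (by linarith)).1 (h.2 a h1 h2 h3)⟩

lemma Win_mono {l l' : Filter ℝ} (h : l' ≤ l) {ℓ R : ℝ} (hW : Win l ℓ R) : Win l' ℓ R :=
  ⟨fun b h1 h2 h3 ε hε => h (hW.1 b h1 h2 h3 ε hε), fun a h1 h2 h3 ε hε => h (hW.2 a h1 h2 h3 ε hε)⟩

lemma Bd_nonneg {ℓ x : ℝ} (hx : 0 < x) : 0 ≤ Bd ℓ x :=
  le_max_of_le_right (by positivity)

/-- **two-sided bounds in a finite range** -/
theorem range (RH : RiemannHypothesis) {l : Filter ℝ} (hl : l ≤ atTop) {ℓ R : ℝ} (hℓ : 0 < ℓ)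
    (hR : 1 < R) (hW : Win l ℓ R) {a b : ℝ} (ha : 0 < a) (hab : a < b) (hbR : b < R) {ε : ℝ}
    (hε : 0 < ε) : ∀ᶠ T in l,
      (∫ α in a..b, mn α) - Bd ℓ (R - b) - ε ≤ ∫ α in a..b, Fr T α ∧
      ∫ α in a..b, Fr T α ≤ (∫ α in a..b, mn α) + Bd ℓ (R - a) + ε := by
  have key : {T | (∫ α in a..b, mn α) - Bd ℓ (R - b) - ε ≤ ∫ α in a..b, Fr T α ∧
      ∫ α in a..b, Fr T α ≤ (∫ α in a..b, mn α) + Bd ℓ (R - a) + ε} ∈ l := by
    rw [Filter.mem_iff_ultrafilter]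
    intro U hU
    obtain ⟨N, h1, h2, h3, -, -⟩ := ultra RH U (hU.trans hl) hℓ hR (Win_mono hU hW)
    have h4 := (h1 b (by linarith)).sub (h1 a ha)
    have h5 : N b + (1 / 2 + ∫ α in (0 : ℝ)..b, mn α) - (N a + (1 / 2 + ∫ α in (0 : ℝ)..a, mn α)) =
        N b - N a + ∫ α in a..b, mn α := by
      have := int_mn_sub (a := a) (b := b) hab.le
      linarith
    rw [h5] at h4
    have n1 := h2 a ha (by linarith)
    have n2 := h2 b (by linarith) hbR.le
    have n3 := h3 a ha (by linarith)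
    have n4 := h3 b (by linarith) hbR
    have e1 : ∀ᶠ T in (U : Filter ℝ),
        (∫ α in a..b, mn α) - Bd ℓ (R - b) - ε < Ph T b - Ph T a :=
      (tendsto_order.1 h4).1 _ (by linarith)
    have e2 : ∀ᶠ T in (U : Filter ℝ),
        Ph T b - Ph T a < (∫ α in a..b, mn α) + Bd ℓ (R - a) + ε :=
      (tendsto_order.1 h4).2 _ (by linarith)
    have e3 : ∀ᶠ T in (U : Filter ℝ), (∫ α in a..b, mn α) - Bd ℓ (R - b) - ε ≤
        ∫ α in a..b, Fr T α ∧ ∫ α in a..b, Fr T α ≤ (∫ α in a..b, mn α) + Bd ℓ (R - a) + ε := by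
      filter_upwards [e1, e2] with T t1 t2
      rw [Ph_sub] at t1 t2
      exact ⟨t1.le, t2.le⟩
    exact e3
  exact key

/-- the diagonal is at most the pairing with the tent -/
lemma diag_le {R : ℝ} (hR : 0 < R) :
    ∀ᶠ T in atTop, (Mp T).real {0} ≤ ∫ α, tr R α * Fr T α := by
  obtain ⟨C, hC, hB⟩ := Mp_bdd
  filter_upwards [eventually_ge_atTop 10, hB] with T hT hBT
  have hfin := Mp_fin T
  rw [Fr_pair (tr_int hR)]
  have e : (Mp T).real {0} = ∫ x in ({0} : Set ℝ), fl (tr R) x *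
      ww (2 * Real.pi * x / Real.log T) ∂(Mp T) := by
    rw [integral_singleton, mul_zero, zero_div, ww_zero, fl_tr_zero hR]
    simp
  rw [e]
  refine setIntegral_le_integral ?_ (ae_of_all _ fun x => ?_)
  · refine (Bdd.integrable (by linarith) hBT (fl_cont (tr_int hR)) (fl_qd (adm_tr hR))).mul_bdd
      (c := 1) ?_ (ae_of_all _ fun x => ?_)
    · have := ww_cont
      apply Continuous.aestronglyMeasurable
      fun_prop
    · rw [Real.norm_eq_abs, abs_of_pos (ww_pos _)]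
      exact ww_le _
  · exact mul_nonneg (fl_tr_nonneg hR x) (ww_pos _).le

/-- the diagonal count -/
theorem diag_count (RH : RiemannHypothesis) {l : Filter ℝ} (hl : l ≤ atTop) {ℓ R : ℝ}
    (hℓ : 0 < ℓ) (hR : 1 < R) (hW : Win l ℓ R) {ε : ℝ} (hε : 0 < ε) : ∀ᶠ T in l,
      (N T 0 0 : ℝ) ≤ (1 + 1 / (3 * R ^ 2) + ε) * X T := by
  have key : {T | (N T 0 0 : ℝ) ≤ (1 + 1 / (3 * R ^ 2) + ε) * X T} ∈ l := by
    rw [Filter.mem_iff_ultrafilter]
    intro U hU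
    obtain ⟨_, -, -, -, -, h5⟩ := ultra RH U (hU.trans hl) hℓ hR (Win_mono hU hW)
    have hUt := hU.trans hl
    have e3 : ∀ᶠ T in (U : Filter ℝ), (N T 0 0 : ℝ) ≤ (1 + 1 / (3 * R ^ 2) + ε) * X T := by
      filter_upwards [h5 ε hε, hUt (diag_le (by linarith : 0 < R)), hUt (eventually_ge_atTop 10)]
        with T t1 t2 hT
      have hX := Pool.Agent.Y744.Xf_pos (V := T) (by linarith)
      have h6 : (N T 0 0 : ℝ) = (Mp T).real {0} * X T := by
        rw [Pool.Agent.Y744.G.N_eq (by linarith), Pool.Agent.Y744.G.X_eq,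
          Mp_PC hT (measurableSet_singleton _), Set.Icc_self, div_mul_cancel₀ _ hX.ne']
      rw [h6, Pool.Agent.Y744.G.X_eq]
      exact mul_le_mul_of_nonneg_right (t2.trans t1) hX.le
    exact e3
  exact key

lemma Bd_tendsto (ℓ : ℝ) (c : ℝ) : Tendsto (fun R => Bd ℓ (R - c)) atTop (𝓝 0) := by
  unfold Bd
  have h0 : Tendsto (fun R : ℝ => 3 * (R - c)) atTop atTop :=
    (tendsto_atTop_add_const_right _ (-c) tendsto_id).const_mul_atTop (by norm_num)
  have h1 : Tendsto (fun R : ℝ => ℓ / (3 * (R - c))) atTop (𝓝 0) := h0.const_div_atTop ℓ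
  have h2 : Tendsto (fun R : ℝ => Real.sqrt (ℓ / (3 * (R - c)))) atTop (𝓝 (Real.sqrt 0)) :=
    (Real.continuous_sqrt.tendsto 0).comp h1
  rw [Real.sqrt_zero] at h2
  have h3 : Tendsto (fun R : ℝ => 1 / (3 * (R - c))) atTop (𝓝 0) := h0.const_div_atTop 1
  have := h2.max h3
  simpa using this

/-- **the criterion** -/
theorem crit (RH : RiemannHypothesis) {l : Filter ℝ} (hl : l ≤ atTop) {ℓ : ℝ} (hℓ : 0 < ℓ) :
    Montgomery l ↔ ((∀ b, 1 < b → b ≤ ℓ → MU l (1 / 2) b) ∧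
      ∀ a, 0 < a → 1 < a + ℓ → MU l a (a + ℓ)) := by
  constructor
  · intro h
    rw [Pool.Agent.Y744.G.Mont_iff hl] at h
    have h1 : ∀ R, MeanUp l R := fun R => up_weak hl (weak_win hl h) R
    exact ⟨fun b hb _ => (MU_iff hl (by norm_num) (by linarith)).2
        (h1 b (1 / 2) b (by norm_num) (by linarith) le_rfl),
      fun a ha _ => (MU_iff hl ha (by linarith)).2
        (h1 (a + ℓ) a (a + ℓ) ha (by linarith) le_rfl)⟩
  · rintro ⟨h1, h2⟩
    have hW : ∀ R, Win l ℓ R := fun R => Win_of hl hℓ ⟨fun b hb hb2 _ => h1 b hb hb2,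
      fun a ha ha2 _ => h2 a ha ha2⟩
    have hM : MeanLim l := by
      intro a b ha hab
      rw [Metric.tendsto_nhds]
      intro ε hε
      have e1 := (tendsto_order.1 (Bd_tendsto ℓ a)).2 (ε / 2) (by positivity)
      have e2 := (tendsto_order.1 (Bd_tendsto ℓ b)).2 (ε / 2) (by positivity)
      obtain ⟨R, hR1, hR2, hR3, hR4⟩ := (e1.and (e2.and ((eventually_gt_atTop 1).and
        (eventually_gt_atTop b)))).exists
      filter_upwards [range RH hl hℓ hR3 (hW R) ha hab hR4 (ε := ε / 4) (by positivity)]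
        with T hT
      rw [Real.dist_eq, abs_lt]
      constructor
      · linarith [hT.1]
      · linarith [hT.2]
    rw [Pool.Agent.Y744.G.Mont_iff hl]
    exact fun α β hαβ => Pool.Agent.Y744.Nr_all hl (Aa_lim hl (weak_mean RH hl hM)) hαβ

/-- finite certificates -/
theorem cert_len (RH : RiemannHypothesis) {ℓ : ℝ} (hℓ : 0 < ℓ) (hℓ1 : ℓ ≤ 1) {α β : ℝ}
    (hαβ : α < β) {ε : ℝ} (hε : 0 < ε) :
    ∃ (S : Finset ℝ) (δ T₀ : ℝ), (∀ a ∈ S, 0 < a) ∧ 0 < δ ∧ ∀ T, T₀ ≤ T →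
      (∀ a ∈ S, ∫ x in a..(a + ℓ), (P.F T x).re ≤ (∫ x in a..(a + ℓ), min x 1) + δ) →
      |D T α β| ≤ ε := by
  -- positions `exp u`
  obtain ⟨S, δ, T₀, -, hδ, h⟩ := Pool.Agent.U507.FW.cert (A := 0)
    (Hy := fun a δ T => 0 < a → ∫ x in a..(a + ℓ), (P.F T x).re ≤
      (∫ x in a..(a + ℓ), min x 1) + δ) (concl := fun T => |D T α β| ≤ ε)
    (fun a δ δ' T hδ h ha => (h ha).trans (by linarith)) (fun l hl h => by
      refine Pool.Agent.U507.FW.mont_small hl ((crit RH hl hℓ).2 ⟨fun b hb hb2 => ?_,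
        fun a ha _ ε hε => ?_⟩) hαβ hε
      · linarith
      · exact (h a ha.le ε hε).mono fun T hT => hT ha)
  classical
  refine ⟨S.filter (0 < ·), δ, T₀, fun a ha => (Finset.mem_filter.1 ha).2, hδ,
    fun T hT hS => h T hT fun a ha ha0 => hS a (Finset.mem_filter.2 ⟨ha, ha0⟩)⟩

end Pool.Agent.U507.FL
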